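import Pool.Agent.N869.GK.StmM
import Pool.Agent.N55.GK.INVA

/-! GK/M-INVAM (helper395, project GK of helper869), after INVAH of helper271 and INVA of helper55. -/

set_option autoImplicit false

open scoped Classical

namespace Pool.Agent.N395.GK

open Finset Filter Topology
open Pool.Agent.N869.GK (mom kap S_REF S_KAP)
open Pool.Agent.N869.GK.M
open Pool.Agent.N55.GK (near_prod)

theorem t_INVAM : Pool.Agent.N869.GK.M.S_INVAM := by
  intro hU hR _ I _ e ρ hρ ε hε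
  obtain ⟨m₀, δ, hδ, H⟩ := hU I e ρ (ε / 2) (half_pos hε)
  have h1 : ∀ᶠ δ₀ in 𝓝[>] (0 : ℝ), ∀ m : I → Fin (m₀ + 1), ∀ x : I → ℝ,
      (∀ a, |x a - mom (m a)| ≤ δ₀) → |∏ a, x a - ∏ a, mom (m a)| ≤ δ := by
    rw [Filter.eventually_all]
    intro m
    exact near_prod (fun a => mom (m a)) δ hδ
  have h2 := near_prod (fun a : I => kap (ρ a)) (ε / 2) (half_pos hε)
  have h3 : ∀ᶠ δ₀ in 𝓝[>] (0 : ℝ), 0 < δ₀ := eventually_mem_nhdsWithin
  obtain ⟨δ₀, h1, h2, h3⟩ := (h1.and (h2.and h3)).exists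
  choose Ω₀ i1 i2 k₀ hk hm hp using fun a : I => hR (e a) (ρ a) (hρ a) m₀ δ₀ h3
  refine ⟨m₀, δ, hδ, ?_⟩
  intro Ω _ _ k hkp hmom
  have key := H Ω ((a : I) → Ω₀ a) k (fun w a => k₀ a (w a)) hkp (fun w a => hk a (w a)) hmom ?_
  · have e1 : (((univ.filter fun ω : (a : I) → Ω₀ a => ∀ a, k₀ a (ω a) = ρ a).card : ℝ) /
        Fintype.card ((a : I) → Ω₀ a)) =
        ∏ a : I, (((univ.filter fun ω : Ω₀ a => k₀ a ω = ρ a).card : ℝ) /
          Fintype.card (Ω₀ a)) := by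
      have : (univ.filter fun ω : (a : I) → Ω₀ a => ∀ a, k₀ a (ω a) = ρ a) =
          Fintype.piFinset (fun a : I => univ.filter fun ω : Ω₀ a => k₀ a ω = ρ a) := by
        ext w; simp [Fintype.mem_piFinset]
      rw [this, Fintype.card_piFinset, Fintype.card_pi, Finset.prod_div_distrib]
      push_cast
      rfl
    have e2 := h2 (fun a => ((univ.filter fun ω : Ω₀ a => k₀ a ω = ρ a).card : ℝ) /
      Fintype.card (Ω₀ a)) hp
    rw [← e1] at e2
    have := abs_sub_le (((univ.filter fun ω : Ω => ∀ a, k ω a = ρ a).card : ℝ) / Fintype.card Ω)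
      (((univ.filter fun ω : (a : I) → Ω₀ a => ∀ a, k₀ a (ω a) = ρ a).card : ℝ) /
        Fintype.card ((a : I) → Ω₀ a))
      (∏ a, kap (ρ a))
    linarith
  · intro m hmm
    have e1 : (∑ ω : (a : I) → Ω₀ a, ∏ a, (2 : ℝ) ^ (m a * k₀ a (ω a))) /
        Fintype.card ((a : I) → Ω₀ a) =
        ∏ a, ((∑ ω : Ω₀ a, (2 : ℝ) ^ (m a * k₀ a ω)) / Fintype.card (Ω₀ a)) := by
      rw [Finset.prod_div_distrib, Fintype.card_pi]
      congr 1
      · rw [Finset.prod_univ_sum, Fintype.piFinset_univ]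
      · push_cast; rfl
    rw [e1]
    have := h1 (fun a => ⟨m a, Nat.lt_succ_of_le (hmm a)⟩)
      (fun a => (∑ ω : Ω₀ a, (2 : ℝ) ^ (m a * k₀ a ω)) / Fintype.card (Ω₀ a))
      (fun a => hm a (m a) (hmm a))
    exact this

end Pool.Agent.N395.GK
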